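import Pool.Agent.Helper15.Cover

/-!
# Potential density of double covers of products of projective lines

Let `F` be a polynomial in `n` variables over a number field `K`, of degree at most four in each
variable, and assume that over the algebraic closure some irreducible factor of `F` of
multiplicity one involves all the variables (for instance: `F` is geometrically irreducible and
involves all the variables).  Then every irreducible scheme over `K` that is birational over `K`
to the double cover `w ^ 2 = F(x_1, ..., x_n)` is potentially dense.
-/

namespace Pool.Agent.Helper15.Old.DoubleCoverDegreeFour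

open AlgebraicGeometry CategoryTheory MvPolynomial Pool.Agent.Helper15

universe u

theorem result (K : Type u) [Field K] [NumberField K] (n : ℕ) (F : MvPolynomial (Fin n) K)
    (hdeg : ∀ j, F.degreeOf j ≤ 4)
    (P H : MvPolynomial (Fin n) (AlgebraicClosure K)) (hP : Irreducible P)
    (hF : map (algebraMap K (AlgebraicClosure K)) F = P * H) (hPH : ¬ P ∣ H)
    (hvars : ∀ j, 1 ≤ P.degreeOf j)
    (X : Scheme.{u}) (s : X ⟶ Spec (CommRingCat.of K)) [IrreducibleSpace X]
    (hX : BirationalOver K X
      (Spec (CommRingCat.of (AdjoinRoot
        (Polynomial.X ^ 2 - Polynomial.C F : Polynomial (MvPolynomial (Fin n) K)))))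
      s
      (Spec.map (CommRingCat.ofHom (algebraMap K (AdjoinRoot
        (Polynomial.X ^ 2 - Polynomial.C F : Polynomial (MvPolynomial (Fin n) K))))))) :
    PotentiallyDense K X s := by
  classical
  have hn : Nonempty (Fin n) := by
    by_contra h
    rw [not_nonempty_iff] at h
    have h1 : P = C (coeff 0 P) := MvPolynomial.eq_C_of_isEmpty P
    apply hP.not_isUnit
    rw [h1]
    refine (IsUnit.mk0 _ ?_).map C
    intro h0
    apply hP.ne_zero
    rw [h1, h0, map_zero]
  have : CharZero (AlgebraicClosure K) :=
    charZero_of_injective_algebraMap (algebraMap K (AlgebraicClosure K)).injective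
  obtain ⟨a, ha0, ha1⟩ := exists_good_point P H hP hPH hvars
  have hev : ∀ Q : MvPolynomial (Fin n) K,
      eval a (map (algebraMap K (AlgebraicClosure K)) Q) = aeval a Q := by
    intro Q
    rw [MvPolynomial.eval_map, aeval_def]
  obtain ⟨L, hfin, hd⟩ := numberField_dense K F hdeg a (by rw [← hev, hF, ha0])
    (fun j => by rw [← hev, ← pderiv_map, hF]; exact ha1 j)
  refine PotentiallyDense.of_birational K X _ s _ hX ⟨L, inferInstance, inferInstance, hfin, ?_⟩
  have : CharZero L := charZero_of_injective_algebraMap (algebraMap K L).injective
  exact dense_ratPts_spec K L _ (fun g hg => cover_separated F hd g hg)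

end Pool.Agent.Helper15.Old.DoubleCoverDegreeFour
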