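import Pool.Agent.Helper15.WE23

/-!
# Potential density of varieties with many fibrations in curves of genus at most one

Let `K` be a number field, `E` a finitely generated field extension of `K` (the function field of
a variety) and `B i` a family of intermediate fields such that, for each `i`, either
(a) `E = B i (x, y)` with `x` transcendental over `B i` and `y ^ 2 = q(x)`, `q` separable of
degree one, two, three or four over `B i`, or (b) `E / B i` is the function field of a curve of
genus one (`IsGenusOne`: `B i` is algebraically closed in `E`, and over the algebraic closure of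
`B i` the curve becomes an elliptic curve; the curve need not have points of small degree).
If the `B i` have no common element transcendental over `K` then every variety dominated by the
variety of `E` is potentially dense.
-/

namespace Pool.Agent.Helper15.Old.GenusOneFibrations

open AlgebraicGeometry CategoryTheory Pool.Agent.Helper15

universe u

/-- `E = B(x, y)` with `x` transcendental over `B` and `y ^ 2 = q(x)`, where `q` is a separable
polynomial over `B` of degree one, two, three or four. -/
def IsDoubleLine {K E : Type u} [Field K] [Field E] [Algebra K E] (B : IntermediateField K E) :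
    Prop :=
  ∃ (x y : E) (q : Polynomial B), Transcendental B x ∧ q.Separable ∧ 1 ≤ q.natDegree ∧
    q.natDegree ≤ 4 ∧ y ^ 2 = Polynomial.aeval x q ∧ IntermediateField.adjoin B {x, y} = ⊤

theorem result (K : Type u) [Field K] [NumberField K] (E : Type u) [Field E] [Algebra K E]
    (hfg : (⊤ : IntermediateField K E).FG) {ι : Type u} (B : ι → IntermediateField K E)
    (h : ∀ i, IsDoubleLine (B i) ∨ IsGenusOne (B i))
    (hB : ∀ e : E, (∀ i, e ∈ B i) → IsAlgebraic K e)
    (A : Type u) [CommRing A] [Algebra K A] [Algebra.FiniteType K A] (f : A →ₐ[K] E)
    (hf : Function.Injective f)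
    (X : Scheme.{u}) (s : X ⟶ Spec (CommRingCat.of K)) [IrreducibleSpace X]
    (hX : BirationalOver K X (Spec (CommRingCat.of A)) s
      (Spec.map (CommRingCat.ofHom (algebraMap K A)))) :
    PotentiallyDense K X s := by
  refine PotentiallyDense.of_birational K X _ s _ hX (WE.main K E hfg B (fun i => ?_) hB A f hf)
  rcases h i with ⟨x, y, q, h1, h2, h3, h4, h5, h6⟩ | hi
  · exact Or.inl ⟨x, y, q, h1, h2, h3, h4, h5, h6⟩
  · exact Or.inr hi

end Pool.Agent.Helper15.Old.GenusOneFibrations
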