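import Pool.Agent.Helper15.Cover
import Pool.Agent.Helper15.SexticNF

/-!
# Potential density of double covers branched along a sextic containing a line

Let `f` be a polynomial of total degree at most six in `n` variables over a number field `K`,
let `B` be the hypersurface `f = 0`, and suppose that over the algebraic closure `B` contains the
line `b + t d`, that `B` is smooth at `b`, and that there is a direction `v` such that the line
`b + s v` has contact of order exactly three with `B` at `b` and the mixed derivative of `f` in
the directions `d` and `v` does not vanish at `b`.  Then every irreducible scheme over `K` that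
is birational over `K` to the double cover `w ^ 2 = f(x_1, ..., x_n)` is potentially dense.
For `n = 3` these varieties are sextic double solids.
-/

namespace Pool.Agent.Helper15.Old.SexticContainingLine

open AlgebraicGeometry CategoryTheory MvPolynomial Pool.Agent.Helper15

universe u

theorem result (K : Type u) [Field K] [NumberField K] (n : ℕ) (f : MvPolynomial (Fin n) K)
    (hdeg : f.totalDegree ≤ 6)
    (F : MvPolynomial (Fin n) (AlgebraicClosure K))
    (hF : F = map (algebraMap K (AlgebraicClosure K)) f)
    (b d v : Fin n → AlgebraicClosure K)
    (hline : ∀ t : AlgebraicClosure K, eval (b + t • d) F = 0)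
    (hb : ∃ i, eval b (pderiv i F) ≠ 0)
    (h1 : eval b (dirDeriv v F) = 0)
    (h2 : eval b (dirDeriv v (dirDeriv v F)) = 0)
    (h3 : eval b (dirDeriv v (dirDeriv v (dirDeriv v F))) ≠ 0)
    (h4 : eval b (dirDeriv d (dirDeriv v F)) ≠ 0)
    (X : Scheme.{u}) (s : X ⟶ Spec (CommRingCat.of K)) [IrreducibleSpace X]
    (hX : BirationalOver K X
      (Spec (CommRingCat.of (AdjoinRoot
        (Polynomial.X ^ 2 - Polynomial.C f : Polynomial (MvPolynomial (Fin n) K)))))
      s
      (Spec.map (CommRingCat.ofHom (algebraMap K (AdjoinRoot
        (Polynomial.X ^ 2 - Polynomial.C f : Polynomial (MvPolynomial (Fin n) K))))))) :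
    PotentiallyDense K X s := by
  subst hF
  obtain ⟨L, hfin, hd⟩ := sextic_numberField K f hdeg b d v hline hb h1 h2 h3 h4
  refine PotentiallyDense.of_birational K X _ s _ hX ⟨L, inferInstance, inferInstance, hfin, ?_⟩
  have : CharZero L := charZero_of_injective_algebraMap (algebraMap K L).injective
  exact dense_ratPts_spec K L _ (fun g hg => cover_separated f hd g hg)

end Pool.Agent.Helper15.Old.SexticContainingLine
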